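import Pool.Agent.R515.GC.Geo

/-!
Simple arrangements of great circles all of whose faces have at most five sides.
-/

set_option autoImplicit false

namespace Pool.Agent.Results.MP_2b14c6_co.AtMostFiveSides

open Set Topology Filter

/-- `C` is a great circle of the unit sphere of `ℝ³`. -/
def IsGreatCircle (C : Set (EuclideanSpace ℝ (Fin 3))) : Prop :=
  ∃ v : EuclideanSpace ℝ (Fin 3), v ≠ 0 ∧ C = {x | x ∈ Metric.sphere 0 1 ∧ inner ℝ v x = 0}

/-- `A` is a simple arrangement of `n` distinct great circles. -/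
structure IsSimpleArrangement {n : ℕ} (A : Fin n → Set (EuclideanSpace ℝ (Fin 3))) : Prop where
  circle : ∀ i, IsGreatCircle (A i)
  inj : Function.Injective A
  simple : ∀ x, ∀ i j k, i ≠ j → j ≠ k → i ≠ k → ¬ (x ∈ A i ∧ x ∈ A j ∧ x ∈ A k)

/-- The faces: the connected components of the complement of the circles in the sphere. -/
def IsFace {n : ℕ} (A : Fin n → Set (EuclideanSpace ℝ (Fin 3)))
    (F : Set (EuclideanSpace ℝ (Fin 3))) : Prop :=
  ∃ x ∈ Metric.sphere 0 1 \ ⋃ i, A i, F = connectedComponentIn (Metric.sphere 0 1 \ ⋃ i, A i) x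

/-- The boundary of `F` without the vertices of the arrangement (the points on two circles). -/
def openBoundary {n : ℕ} (A : Fin n → Set (EuclideanSpace ℝ (Fin 3)))
    (F : Set (EuclideanSpace ℝ (Fin 3))) : Set (EuclideanSpace ℝ (Fin 3)) :=
  (closure F \ F) \ {x | ∃ i j, i ≠ j ∧ x ∈ A i ∧ x ∈ A j}

/-- The sides of `F`: the connected components of the boundary without the vertices. -/
def sides {n : ℕ} (A : Fin n → Set (EuclideanSpace ℝ (Fin 3)))
    (F : Set (EuclideanSpace ℝ (Fin 3))) : Set (Set (EuclideanSpace ℝ (Fin 3))) :=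
  {K | ∃ y ∈ openBoundary A F, K = connectedComponentIn (openBoundary A F) y}

open Pool.Agent.R515.GC

/-- the arrangement -/
noncomputable def Arr (n : ℕ) (i : Fin n) : Set E3 :=
  {x | x ∈ Metric.sphere 0 1 ∧ inner ℝ (nv i) x = 0}

lemma mem_Arr {n : ℕ} (i : Fin n) (x : E3) :
    x ∈ Arr n i ↔ x ∈ Metric.sphere (0 : E3) 1 ∧ Fv x i = 0 := by
  unfold Arr
  rw [Set.mem_ofPred_eq, inner_nv]

lemma nv_ne (k : ℕ) : nv k ≠ 0 := by
  intro h
  have h1 : Fv (!₂[(1 : ℝ), 0, 0] : E3) k = 0 := by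
    rw [← inner_nv, h, inner_zero_left]
  unfold Fv at h1
  simp at h1

lemma three {x : E3} {i j k : ℕ} (h1 : i < j) (h2 : j < k) (a : Fv x i = 0) (b : Fv x j = 0)
    (c : Fv x k = 0) : x = 0 := by
  have hD := D_sign h1 h2
  have hD' : D i j k ≠ 0 := fun h => by rw [h, mul_zero] at hD; exact lt_irrefl _ hD
  have e1 : x 2 * D i j k = 0 := by
    unfold D
    unfold Fv at a b c
    linear_combination ((j : ℝ) - i) * c - ((k : ℝ) - i) * b + ((k : ℝ) - j) * a
  have hx2 : x 2 = 0 := (mul_eq_zero.mp e1).resolve_right hD'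
  unfold Fv at a b
  rw [hx2, mul_zero, add_zero] at a b
  have hij : (j : ℝ) - i ≠ 0 := by
    have : (i : ℝ) < j := by exact_mod_cast h1
    linarith
  have hx1 : x 1 = 0 := by
    have : ((j : ℝ) - i) * x 1 = 0 := by linear_combination b - a
    exact (mul_eq_zero.mp this).resolve_left hij
  have hx0 : x 0 = 0 := by rw [hx1, mul_zero, add_zero] at a; exact a
  ext m
  fin_cases m
  · exact hx0
  · exact hx1
  · exact hx2

lemma three' {x : E3} (hx : x ∈ Metric.sphere (0 : E3) 1) {i j k : ℕ} (hij : i ≠ j) (hjk : j ≠ k)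
    (hik : i ≠ k) (a : Fv x i = 0) (b : Fv x j = 0) (c : Fv x k = 0) : False := by
  have hx0 : x ≠ 0 := by
    rintro rfl
    simp at hx
  rcases lt_or_gt_of_ne hij with h1 | h1 <;> rcases lt_or_gt_of_ne hjk with h2 | h2 <;>
    rcases lt_or_gt_of_ne hik with h3 | h3
  · exact hx0 (three h1 h2 a b c)
  · omega
  · exact hx0 (three h3 h2 a c b)
  · exact hx0 (three h3 h1 c a b)
  · exact hx0 (three h1 h3 b a c)
  · exact hx0 (three h2 h3 b c a)
  · omega
  · exact hx0 (three h2 h1 c b a)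

lemma simple_Arr (n : ℕ) : IsSimpleArrangement (Arr n) where
  circle i := ⟨nv i, nv_ne i, rfl⟩
  inj := by
    intro i j hij
    by_contra hne
    have hne' : (i : ℕ) ≠ j := fun h => hne (Fin.ext h)
    obtain ⟨w, hw⟩ : ∃ w : E3, w = !₂[-(i : ℝ), 1, 0] := ⟨_, rfl⟩
    have hwi : Fv w i = 0 := by rw [hw]; unfold Fv; simp
    have hwj : Fv w j ≠ 0 := by
      rw [hw]
      unfold Fv
      simp
      intro h
      apply hne'
      have : (i : ℝ) = j := by linarith
      exact_mod_cast this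
    have hw0 : w ≠ 0 := by
      rintro rfl
      apply hwj
      unfold Fv; simp
    have hn : 0 < ‖w‖ := norm_pos_iff.mpr hw0
    have hmem : ‖w‖⁻¹ • w ∈ Arr n i := by
      rw [mem_Arr]
      refine ⟨?_, by rw [Fv_smul, hwi, mul_zero]⟩
      rw [mem_sphere_zero_iff_norm, norm_smul, norm_inv, norm_norm, inv_mul_cancel₀ hn.ne']
    rw [hij, mem_Arr, Fv_smul] at hmem
    exact (mul_ne_zero (inv_ne_zero hn.ne') hwj) hmem.2
  simple := by
    rintro x i j k hij hjk hik ⟨h1, h2, h3⟩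
    rw [mem_Arr] at h1 h2 h3
    exact three' h1.1 (fun h => hij (Fin.ext h)) (fun h => hjk (Fin.ext h))
      (fun h => hik (Fin.ext h)) h1.2 h2.2 h3.2

section
variable {n : ℕ} {x₀ : E3}

/-- the sign of the linear functional at `x₀` -/
noncomputable def sg (x₀ : E3) (k : ℕ) : ℝ := if decide (0 < Fv x₀ k) then (1 : ℝ) else -1

lemma sg_pos {k : ℕ} (h : Fv x₀ k ≠ 0) : 0 < sg x₀ k * Fv x₀ k := by
  unfold sg
  by_cases h1 : 0 < Fv x₀ k
  · simp [h1]
  · have : Fv x₀ k < 0 := lt_of_le_of_ne (not_lt.mp h1) h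
    simp [h1, this]

/-- the cell of `x₀` -/
def cell (n : ℕ) (x₀ : E3) : Set E3 :=
  Metric.sphere (0 : E3) 1 ∩ {y | ∀ k < n, 0 < sg x₀ k * Fv y k}

/-- the open arcs on the boundary -/
def arc (n : ℕ) (x₀ : E3) (i : ℕ) : Set E3 :=
  Metric.sphere (0 : E3) 1 ∩ {y | Fv y i = 0 ∧ ∀ k < n, k ≠ i → 0 < sg x₀ k * Fv y k}

lemma conv_aux (c : ℝ) (k : ℕ) {x y : E3} {a b : ℝ} (ha : 0 ≤ a) (hb : 0 ≤ b) (hab : a + b = 1)
    (hx : 0 < c * Fv x k) (hy : 0 < c * Fv y k) : 0 < c * Fv (a • x + b • y) k := by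
  rw [Fv_add, Fv_smul, Fv_smul]
  have e : c * (a * Fv x k + b * Fv y k) = a * (c * Fv x k) + b * (c * Fv y k) := by ring
  rw [e]
  rcases ha.eq_or_lt with h | h
  · subst h
    have : b = 1 := by linarith
    rw [this]; linarith
  · have := mul_pos h hx
    have := mul_nonneg hb hy.le
    linarith

lemma precon_cell (hn : 0 < n) : IsPreconnected (cell n x₀) := by
  apply precon
  · intro x hx y hy a b ha hb hab k hk
    exact conv_aux _ k ha hb hab (hx k hk) (hy k hk)
  · intro h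
    have := h 0 hn
    unfold Fv at this
    simp at this
  · intro y hy r hr k hk
    rw [Fv_smul]
    have := mul_pos hr (hy k hk)
    linarith [mul_left_comm r (sg x₀ k) (Fv y k)]

lemma precon_arc (hn : 2 ≤ n) (i : ℕ) : IsPreconnected (arc n x₀ i) := by
  apply precon
  · intro x hx y hy a b ha hb hab
    refine ⟨?_, fun k hk hki => conv_aux _ k ha hb hab (hx.2 k hk hki) (hy.2 k hk hki)⟩
    rw [Fv_add, Fv_smul, Fv_smul, hx.1, hy.1]; ring
  · intro h
    obtain ⟨k, hk, hki⟩ : ∃ k < n, k ≠ i := by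
      by_cases h0 : i = 0
      · exact ⟨1, by omega, by omega⟩
      · exact ⟨0, by omega, by omega⟩
    have := h.2 k hk hki
    unfold Fv at this
    simp at this
  · intro y hy r hr
    refine ⟨by rw [Fv_smul, hy.1, mul_zero], fun k hk hki => ?_⟩
    rw [Fv_smul]
    have := mul_pos hr (hy.2 k hk hki)
    linarith [mul_left_comm r (sg x₀ k) (Fv y k)]

lemma mem_compl (x : E3) : x ∈ Metric.sphere (0 : E3) 1 \ ⋃ i, Arr n i ↔
    x ∈ Metric.sphere (0 : E3) 1 ∧ ∀ k < n, Fv x k ≠ 0 := by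
  rw [Set.mem_sdiff, mem_iUnion, not_exists]
  constructor
  · rintro ⟨h1, h2⟩
    refine ⟨h1, fun k hk h3 => h2 ⟨k, hk⟩ ?_⟩
    rw [mem_Arr]
    exact ⟨h1, h3⟩
  · rintro ⟨h1, h2⟩
    refine ⟨h1, fun i h3 => ?_⟩
    rw [mem_Arr] at h3
    exact h2 i i.2 h3.2

/-- the faces are the cells -/
lemma face_eq (hn : 0 < n) (hx : x₀ ∈ Metric.sphere (0 : E3) 1 \ ⋃ i, Arr n i) :
    connectedComponentIn (Metric.sphere (0 : E3) 1 \ ⋃ i, Arr n i) x₀ = cell n x₀ := by
  have hx' := (mem_compl x₀).mp hx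
  apply Subset.antisymm
  · intro y hy
    have hyc := connectedComponentIn_subset _ _ hy
    refine ⟨hyc.1, fun k hk => ?_⟩
    by_contra hcon
    push Not at hcon
    have hpre := isPreconnected_connectedComponentIn
      (F := Metric.sphere (0 : E3) 1 \ ⋃ i, Arr n i) (x := x₀)
    have hc : ContinuousOn (fun z : E3 => sg x₀ k * Fv z k)
        (connectedComponentIn (Metric.sphere (0 : E3) 1 \ ⋃ i, Arr n i) x₀) :=
      (continuous_const.mul (Fv_cont k)).continuousOn
    have h0 := hpre.intermediate_value hy (mem_connectedComponentIn hx) hc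
    obtain ⟨z, hz, hz0⟩ := h0 ⟨hcon, (sg_pos (hx'.2 k hk)).le⟩
    have hz1 := ((mem_compl z).mp (connectedComponentIn_subset _ _ hz)).2 k hk
    have hsg : sg x₀ k ≠ 0 := by
      unfold sg; split_ifs <;> norm_num
    exact (mul_ne_zero hsg hz1) hz0
  · apply (precon_cell hn).subset_connectedComponentIn
    · exact ⟨hx'.1, fun k hk => sg_pos (hx'.2 k hk)⟩
    · intro y hy
      rw [mem_compl]
      refine ⟨hy.1, fun k hk h0 => ?_⟩
      have := hy.2 k hk
      rw [h0, mul_zero] at this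
      exact lt_irrefl _ this

lemma bd_sub : openBoundary (Arr n) (cell n x₀) ⊆ ⋃ i < n, arc n x₀ i := by
  rintro y ⟨⟨h1, h2⟩, h3⟩
  have hcl : y ∈ Metric.sphere (0 : E3) 1 ∩ {y | ∀ k < n, 0 ≤ sg x₀ k * Fv y k} := by
    refine closure_minimal ?_ ?_ h1
    · rintro z ⟨hz1, hz2⟩
      exact ⟨hz1, fun k hk => (hz2 k hk).le⟩
    · apply Metric.isClosed_sphere.inter
      have : {y : E3 | ∀ k < n, 0 ≤ sg x₀ k * Fv y k} = ⋂ k < n, {y | 0 ≤ sg x₀ k * Fv y k} := by
        ext z; simp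
      rw [this]
      exact isClosed_biInter fun k _ => isClosed_le continuous_const
        (continuous_const.mul (Fv_cont k))
  have hex : ∃ i < n, Fv y i = 0 := by
    by_contra hcon
    push Not at hcon
    apply h2
    refine ⟨hcl.1, fun k hk => ?_⟩
    have hsg : sg x₀ k ≠ 0 := by
      unfold sg; split_ifs <;> norm_num
    exact lt_of_le_of_ne (hcl.2 k hk) (mul_ne_zero hsg (hcon k hk)).symm
  obtain ⟨i, hi, hi0⟩ := hex
  rw [mem_iUnion₂]
  refine ⟨i, hi, hcl.1, hi0, fun k hk hki => ?_⟩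
  have hsg : sg x₀ k ≠ 0 := by
    unfold sg; split_ifs <;> norm_num
  refine lt_of_le_of_ne (hcl.2 k hk) (mul_ne_zero hsg ?_).symm
  intro hk0
  apply h3
  refine ⟨⟨i, hi⟩, ⟨k, hk⟩, ?_, ?_, ?_⟩
  · intro h
    apply hki
    have := congrArg Fin.val h
    exact this.symm
  · rw [mem_Arr]; exact ⟨hcl.1, hi0⟩
  · rw [mem_Arr]; exact ⟨hcl.1, hk0⟩

lemma arc_sub {i : ℕ} (hi : i < n) : arc n x₀ i ⊆ openBoundary (Arr n) (cell n x₀) := by
  rintro y ⟨hy1, hy2, hy3⟩
  have hyn : ‖y‖ = 1 := by simpa using hy1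
  refine ⟨⟨?_, ?_⟩, ?_⟩
  · -- in the closure
    have hsg : sg x₀ i * sg x₀ i = 1 := by
      unfold sg; split_ifs <;> norm_num
    obtain ⟨γ, hγ⟩ : ∃ γ : ℝ → E3, γ = fun ε => ‖y + ε • (sg x₀ i • nv i)‖⁻¹ •
        (y + ε • (sg x₀ i • nv i)) := ⟨_, rfl⟩
    have hγc : Tendsto γ (𝓝[>] 0) (𝓝 y) := by
      have h1 : Continuous fun ε : ℝ => y + ε • (sg x₀ i • nv i) := by fun_prop
      have h2 : ContinuousAt γ 0 := by
        rw [hγ]
        exact (ContinuousAt.inv₀ h1.norm.continuousAt (by simp [hyn])).smul h1.continuousAt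
      have h3 : γ 0 = y := by rw [hγ]; simp [hyn]
      have h4 := h2.tendsto
      rw [h3] at h4
      exact h4.mono_left nhdsWithin_le_nhds
    refine mem_closure_of_tendsto hγc ?_
    have hev : ∀ᶠ ε : ℝ in 𝓝[>] 0, ∀ k ∈ Finset.range n, k ≠ i →
        0 < sg x₀ k * Fv (y + ε • (sg x₀ i • nv i)) k := by
      rw [Filter.eventually_all_finset]
      intro k hk
      rw [Finset.mem_range] at hk
      by_cases hki : k = i
      · exact Eventually.of_forall fun _ h => absurd hki h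
      · have hc : Continuous fun ε : ℝ => sg x₀ k * Fv (y + ε • (sg x₀ i • nv i)) k :=
          continuous_const.mul ((Fv_cont k).comp (by fun_prop))
        have h1 : ∀ᶠ ε : ℝ in 𝓝 0, 0 < sg x₀ k * Fv (y + ε • (sg x₀ i • nv i)) k := by
          apply hc.continuousAt.eventually (lt_mem_nhds _)
          simpa using hy3 k hk hki
        exact (h1.filter_mono nhdsWithin_le_nhds).mono fun _ h _ => h
    filter_upwards [hev, self_mem_nhdsWithin] with ε hε hε0
    have hε0' : (0 : ℝ) < ε := hε0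
    have hall : ∀ k < n, 0 < sg x₀ k * Fv (y + ε • (sg x₀ i • nv i)) k := by
      intro k hk
      by_cases hki : k = i
      · subst hki
        rw [Fv_add, hy2, zero_add, Fv_smul, Fv_smul, ← inner_nv, real_inner_self_eq_norm_sq]
        have hnn : 0 < ‖nv k‖ ^ 2 := by
          have := norm_pos_iff.mpr (nv_ne k)
          positivity
        have e : sg x₀ k * (ε * (sg x₀ k * ‖nv k‖ ^ 2)) = ε * ‖nv k‖ ^ 2 := by
          linear_combination (ε * ‖nv k‖ ^ 2) * hsg
        rw [e]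
        positivity
      · exact hε k (Finset.mem_range.mpr hk) hki
    have hne : y + ε • (sg x₀ i • nv i) ≠ 0 := by
      intro h
      have := hall i hi
      rw [h] at this
      unfold Fv at this
      simp at this
    have hnp : 0 < ‖y + ε • (sg x₀ i • nv i)‖ := norm_pos_iff.mpr hne
    rw [hγ]
    refine ⟨?_, fun k hk => ?_⟩
    · rw [mem_sphere_zero_iff_norm, norm_smul, norm_inv, norm_norm, inv_mul_cancel₀ hnp.ne']
    · rw [Fv_smul]
      have := mul_pos (inv_pos.mpr hnp) (hall k hk)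
      linarith [mul_left_comm ‖y + ε • (sg x₀ i • nv i)‖⁻¹ (sg x₀ k)
        (Fv (y + ε • (sg x₀ i • nv i)) k)]
  · intro h
    have := h.2 i hi
    rw [hy2, mul_zero] at this
    exact lt_irrefl _ this
  · rintro ⟨a, b, hab, ha, hb⟩
    rw [mem_Arr] at ha hb
    have hz : ∀ c : Fin n, Fv y c = 0 → (c : ℕ) = i := by
      intro c hc
      by_contra hci
      have := hy3 c c.2 hci
      rw [hc, mul_zero] at this
      exact lt_irrefl _ this
    exact hab (Fin.ext ((hz a ha.2).trans (hz b hb.2).symm))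

open Classical in
lemma five_arcs (hx : ∀ k < n, Fv x₀ k ≠ 0) :
    ((Finset.range n).filter (fun i => (arc n x₀ i).Nonempty)).card ≤ 5 := by
  apply five (L4_of hx)
  · intro i hi
    exact Finset.mem_range.mp (Finset.mem_filter.mp hi).1
  · intro i hi
    obtain ⟨h1, y, hy⟩ := Finset.mem_filter.mp hi
    exact flip_of (Finset.mem_range.mp h1) hy.2.1 (fun k hk hki => hy.2.2 k hk hki)

end

/-- For every `n ≥ 2` there is a simple arrangement of `n` great circles all of whose faces have at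
most five sides. -/
theorem result (n : ℕ) (hn : 2 ≤ n) : ∃ A : Fin n → Set (EuclideanSpace ℝ (Fin 3)),
    IsSimpleArrangement A ∧ ∀ F, IsFace A F → (sides A F).encard ≤ 5 := by
  classical
  refine ⟨Arr n, simple_Arr n, ?_⟩
  rintro F ⟨x₀, hx, rfl⟩
  rw [face_eq (by omega) hx]
  have hx' := ((mem_compl x₀).mp hx).2
  set I := (Finset.range n).filter (fun i => (arc n x₀ i).Nonempty) with hI
  have hsub : sides (Arr n) (cell n x₀) ⊆ (fun i => connectedComponentIn
      (openBoundary (Arr n) (cell n x₀)) (if h : (arc n x₀ i).Nonempty then h.some else 0)) ''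
        (I : Set ℕ) := by
    rintro K ⟨y, hy, rfl⟩
    obtain ⟨i, hi, hyi⟩ := mem_iUnion₂.mp (bd_sub hy)
    have hne : (arc n x₀ i).Nonempty := ⟨y, hyi⟩
    refine ⟨i, ?_, ?_⟩
    · rw [Finset.mem_coe, hI, Finset.mem_filter, Finset.mem_range]
      exact ⟨hi, hne⟩
    · simp only [dif_pos hne]
      have h1 := (precon_arc (x₀ := x₀) hn i).subset_connectedComponentIn hyi (arc_sub hi)
      exact (connectedComponentIn_eq (h1 hne.some_mem)).symm
  calc (sides (Arr n) (cell n x₀)).encard ≤ _ := Set.encard_le_encard hsub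
    _ ≤ (I : Set ℕ).encard := Set.encard_image_le _ _
    _ = I.card := Set.encard_coe_eq_coe_finsetCard I
    _ ≤ 5 := by exact_mod_cast five_arcs hx'

end Pool.Agent.Results.MP_2b14c6_co.AtMostFiveSides
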